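import Pool.Agent.H545R2.NWin3

/-!
Hamiltonicity on almost slices: circuits with few negations that are only required to be correct on
graphs whose number of edges lies in a short interval.

On one slice (graphs with exactly `m` edges) negations are useless (Berkowitz, Valiant), and on
`2^t` consecutive slices `t` NOT gates can replace all negations (Markov, Fischer). Here: on
`2^t · O(d^2 (log d)^4)` consecutive slices, circuits for Hamiltonicity with at most `t` NOT gates
need size `2^d`. For `t = 0` this is a lower bound for monotone circuits on an interval of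
polylogarithmic length if `d` is a multiple of `log n`.

The proof: `2^t` disjoint copies of the function POLY are embedded into the Hamiltonicity of a graph
on a polylogarithmic number of vertices (times `2^(t/2)`), using a gadget with two families of
clusters. The graph is completed by a path through filler vertices; adding any set of further edges
between the filler vertices does not change the Hamiltonicity, so every number of edges in the range
can be reached.
-/

namespace Pool.Agent.Results.MP_6b3410_lc.AlmostSlices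

/-- A monotone Boolean function of `n`-vertex graphs that depends on at most `w` pairs. -/
def Narrow {n : ℕ} (w : ℕ) (φ : SimpleGraph (Fin n) → Bool) : Prop :=
  ∃ S : Finset (Sym2 (Fin n)), S.card ≤ w ∧ ∀ G G' : SimpleGraph (Fin n),
    (∀ e ∈ S, e ∈ G.edgeSet → e ∈ G'.edgeSet) → φ G = true → φ G' = true

/-- A circuit with gates `i : Fin s`: gate `i` has `w i` inputs, namely the `a i j`, each a
monotone function of at most `d` pairs or an earlier gate, and computes the function `op i` of its
input bits. The gates outside `T` are monotone with at most two inputs, the gates in `T` are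
arbitrary with `∏_{i ∈ T} (w i + 1) ≤ 2^t` (for instance `t` NOT gates; or `T = ∅`, `t = 0`).

Let `R = 2^⌈t/2⌉ (t + 1) (2^131 (⌊log₂ d⌋+1)^12 d^6)^2` and let `m` satisfy
`n + R^2 ≤ m` and `2m ≤ (n - 2R)^2`. If the circuit decides Hamiltonicity on all graphs with at
least `m` and at most `m + 2^t · 2^42 (⌊log₂ d⌋+1)^4 d^2` edges then `2^d ≤ s + ∑_{i ∈ T} w i`. -/
theorem result (d t n m R : ℕ) (hd : 1 ≤ d)
    (hR : R = 2 ^ ((t + 1) / 2) * (t + 1) * (2 ^ 131 * (Nat.log 2 d + 1) ^ 12 * d ^ 6) ^ 2)
    (hm1 : n + R ^ 2 ≤ m) (hm2 : 2 * m ≤ (n - 2 * R) ^ 2)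
    (s : ℕ) (T : Finset (Fin s)) (w : Fin s → ℕ)
    (a : ∀ i, Fin (w i) → {φ : SimpleGraph (Fin n) → Bool // Narrow d φ} ⊕ Fin s)
    (htop : ∀ i j k, a i j = Sum.inr k → k < i)
    (op : ∀ i, (Fin (w i) → Bool) → Bool) (hmon : ∀ i ∉ T, w i ≤ 2 ∧ Monotone (op i))
    (hT : ∏ i ∈ T, (w i + 1) ≤ 2 ^ t)
    (val : SimpleGraph (Fin n) → Fin s → Bool)
    (hval : ∀ G i, val G i = op i (fun j => Sum.elim (fun φ => φ.1 G) (val G) (a i j)))
    (o : Fin s)
    (ho : ∀ G : SimpleGraph (Fin n), m ≤ G.edgeSet.ncard →
      G.edgeSet.ncard ≤ m + 2 ^ t * (2 ^ 42 * (Nat.log 2 d + 1) ^ 4 * d ^ 2) →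
      (val G o = true ↔ G.IsHamiltonian)) :
    2 ^ d ≤ s + ∑ i ∈ T, w i := by
  classical
  have hfree : ∀ φ : {φ : SimpleGraph (Fin n) → Bool // Narrow d φ},
      Pool.Agent.H560R2.FreeOutB (⊤ : SimpleGraph (Fin n)) d φ.1 := by
    rintro ⟨φ, S, h1, h2⟩
    refine ⟨S.filter (fun e => ¬ e.IsDiag), ?_, (Finset.card_filter_le _ _).trans h1, ?_⟩
    · intro e he
      rw [SimpleGraph.edgeSet_top]
      exact (Finset.mem_filter.mp he).2
    · intro G G' _ k2 k3
      refine h2 G G' (fun e he heG => ?_) k3
      have hnd := G.not_isDiag_of_mem_edgeSet heG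
      have hmem : e ∈ S.filter (fun e => ¬ e.IsDiag) := Finset.mem_filter.mpr ⟨he, hnd⟩
      induction e using Sym2.ind with
      | _ u v => exact k2 u v hmem heG
  obtain ⟨C, c1, c2, c3, c4, -⟩ := Pool.Agent.H560R2.to_circuit T w a op htop hmon
    (fun φ G => φ.1 G) val hval s le_rfl
  have hTf : T.filter (fun i => i.val < s) = T := Finset.filter_true_of_mem (fun i _ => i.isLt)
  rw [hTf] at c3 c4
  have h := Pool.Agent.H545R2.Neg.window_ham d t n m R hd hR hm1 hm2
    (fun φ : {φ : SimpleGraph (Fin n) → Bool // Narrow d φ} => φ.1) hfree C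
    (Pool.Agent.H520R2.NM.Wire.gate o) (fun G g1 g2 => by
      show C.vals (fun φ => φ.1 G) o = true ↔ _
      rw [c1]
      exact ho G g1 g2) (by rw [c4]; exact hT)
  omega

end Pool.Agent.Results.MP_6b3410_lc.AlmostSlices
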