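import Pool.Agent.H545R2.NRect

/-!
Circuits for Hamiltonicity with few negations.

Circuits consist of monotone gates of fan-in at most two and of arbitrary further gates (for
instance NOT gates), and they may get for free all Boolean functions of the pairs outside a
rectangle `A × B` of pairs. A circuit of size less than `2^d` for Hamiltonicity has a chain of about
`|A||B| / (d^12 polylog)` non-Hamiltonian graphs along which the bits entering the further gates
change at every step, the consecutive graphs differing only inside the rectangle. So it has at least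
`log₂ |A| + log₂ |B| - O(log d + loglog n)` NOT gates.

The proof: a gadget for Hamiltonicity with two families of clusters whose Hamilton cycles select one
cluster of each family and check there that a copy of the function POLY (existence of a polynomial
of small degree with all its points marked), whose variables are the pairs between the two clusters,
is true; so the OR of `|A||B| / polylog` disjoint copies of POLY is embedded into Hamiltonicity,
although the graph has only `n` vertices. Then the chain argument and the monotone lower bound for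
POLY (file `H560R2`) apply.
-/

namespace Pool.Agent.Results.MP_6b3410_lc.NegationLimit

/-- A Boolean function `φ` of `n`-vertex graphs that depends in an arbitrary way on the pairs
that do not join `A` to `B`, while in the pairs that join `A` to `B` it is monotone and depends on
at most `w` of them (those in `S`). Every variable is such a function if `w ≥ 1`. -/
def FreeOutside {n : ℕ} (A B : Finset (Fin n)) (w : ℕ) (φ : SimpleGraph (Fin n) → Bool) : Prop :=
  ∃ S : Finset (Fin n × Fin n), (∀ e ∈ S, e.1 ∈ A ∧ e.2 ∈ B) ∧ S.card ≤ w ∧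
    ∀ G G' : SimpleGraph (Fin n),
      (∀ u v, ¬ (u ∈ A ∧ v ∈ B ∨ u ∈ B ∧ v ∈ A) → (G.Adj u v ↔ G'.Adj u v)) →
      (∀ e ∈ S, G.Adj e.1 e.2 → G'.Adj e.1 e.2) → φ G = true → φ G' = true

/-- A circuit with gates `i : Fin s`: gate `i` has `w i` inputs, namely `a i j`, each a function
`FreeOutside A B d` or an earlier gate, and computes the function `op i` of its input bits
`inp G i`. The gates outside `T` are monotone with at most two inputs, the gates in `T` are
arbitrary (for instance NOT gates). Let `A`, `B` be disjoint sets of vertices, `u = ⌊log₂ d⌋ + 1`,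
`ℓ = ⌊log₂ n⌋ + 1`, `n ≥ (2^131 u^12 d^6)^2 ℓ`, and `M = ⌊|A| / W⌋ ⌊|B| / W⌋` with
`W = 2^135 u^12 d^6 ℓ`.

If the circuit decides Hamiltonicity and `s + ∑_{i ∈ T} w i < 2^d`, then there is a chain
`G 0 ≤ ... ≤ G M` of non-Hamiltonian graphs such that at every step only pairs that join `A` to `B`
change and some input bit of some gate in `T` changes. In particular `∏_{i ∈ T} (w i + 1) > M`. -/
theorem result (d n : ℕ) (hd : 1 ≤ d)
    (hn : (2 ^ 131 * (Nat.log 2 d + 1) ^ 12 * d ^ 6) ^ 2 * (Nat.log 2 n + 1) ≤ n)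
    (A B : Finset (Fin n)) (hAB : Disjoint A B)
    (s : ℕ) (T : Finset (Fin s)) (w : Fin s → ℕ)
    (a : ∀ i, Fin (w i) → {φ : SimpleGraph (Fin n) → Bool // FreeOutside A B d φ} ⊕ Fin s)
    (htop : ∀ i j k, a i j = Sum.inr k → k < i)
    (op : ∀ i, (Fin (w i) → Bool) → Bool) (hmon : ∀ i ∉ T, w i ≤ 2 ∧ Monotone (op i))
    (val : SimpleGraph (Fin n) → Fin s → Bool)
    (inp : SimpleGraph (Fin n) → ∀ i, Fin (w i) → Bool)
    (hinp : ∀ G i j, inp G i j = Sum.elim (fun φ => φ.1 G) (val G) (a i j))
    (hval : ∀ G i, val G i = op i (inp G i))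
    (o : Fin s) (ho : ∀ G, val G o = true ↔ G.IsHamiltonian)
    (hsize : s + ∑ i ∈ T, w i < 2 ^ d) (W M : ℕ)
    (hW : W = 2 ^ 135 * (Nat.log 2 d + 1) ^ 12 * d ^ 6 * (Nat.log 2 n + 1))
    (hM : M = (A.card / W) * (B.card / W)) :
    (∃ G : ℕ → SimpleGraph (Fin n),
      (∀ i < M, G i ≤ G (i + 1) ∧
        (∀ u v, ¬ (u ∈ A ∧ v ∈ B ∨ u ∈ B ∧ v ∈ A) → ((G i).Adj u v ↔ (G (i + 1)).Adj u v)) ∧
        ∃ t ∈ T, inp (G i) t ≠ inp (G (i + 1)) t) ∧
      (∀ i ≤ M, ¬ (G i).IsHamiltonian)) ∧
    M < ∏ i ∈ T, (w i + 1) := by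
  classical
  have hfree : ∀ φ : {φ : SimpleGraph (Fin n) → Bool // FreeOutside A B d φ},
      Pool.Agent.H560R2.FreeOutB (Pool.Agent.H560R2.rect A B hAB) d φ.1 := by
    rintro ⟨φ, S, h1, h2, h3⟩
    refine ⟨S.image (fun e => s(e.1, e.2)), ?_, Finset.card_image_le.trans h2, ?_⟩
    · intro e he
      obtain ⟨p, hp, rfl⟩ := Finset.mem_image.mp he
      exact Or.inl (h1 p hp)
    · intro G G' k1 k2 k3
      refine h3 G G' (fun u v huv => k1 u v huv) (fun e he => k2 e.1 e.2 ?_) k3
      exact Finset.mem_image_of_mem _ he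
  have hinp' : ∀ G i, inp G i = fun j => Sum.elim (fun φ => φ.1 G) (val G) (a i j) :=
    fun G i => funext (fun j => hinp G i j)
  obtain ⟨C, c1, c2, c3, c4, c5⟩ := Pool.Agent.H560R2.to_circuit T w a op htop hmon
    (fun φ G => φ.1 G) val (fun G i => by rw [hval, hinp']) s le_rfl
  have hTf : T.filter (fun i => i.val < s) = T := Finset.filter_true_of_mem (fun i _ => i.isLt)
  rw [hTf] at c3 c4
  obtain ⟨G, h1, h2⟩ := Pool.Agent.H545R2.Neg.rect_ham d n hd hn A B hAB
    (fun φ : {φ : SimpleGraph (Fin n) → Bool // FreeOutside A B d φ} => φ.1) hfree C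
    (Pool.Agent.H520R2.NM.Wire.gate o) (fun G => by
      show C.vals (fun φ => φ.1 G) o = true ↔ _
      rw [c1]
      exact ho G) (by omega) W M hW hM
  refine ⟨⟨G, fun i hi => ⟨(h1 i hi).1, (h1 i hi).2.1, ?_⟩, h2⟩, ?_⟩
  · obtain ⟨t, ht, j, hj⟩ := c5 _ _ (h1 i hi).2.2
    refine ⟨t, ht, fun h => hj ?_⟩
    rw [← hinp, ← hinp, h]
  · rw [← c4]
    refine C.chain_le _ (fun i φ => φ.1 (G i)) (fun i hi φ => ?_) (fun i hi => (h1 i hi).2.2)
    obtain ⟨S, h3, h4, h5⟩ := φ.2
    show φ.1 (G i) ≤ φ.1 (G (i + 1))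
    rcases hb : φ.1 (G i) with _ | _
    · exact Bool.false_le _
    · rw [h5 (G i) (G (i + 1)) (h1 i hi).2.1 (fun e _ he => (h1 i hi).1 he) hb]

end Pool.Agent.Results.MP_6b3410_lc.NegationLimit
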