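import Pool.Agent.H545R2.NCover

/-!
Which pairs must be negated in a circuit for Hamiltonicity?

For a graph `H` on the vertex set we consider circuits of arbitrary binary gates for Hamiltonicity
all of whose gates are monotone in the pairs of `H` (for instance circuits of AND and OR gates and
literals in which no pair of `H` is negated). If every vertex cover of `H` is large (polylogarithmic
in `n` suffices) such circuits have superpolynomial size; if `H` has a vertex cover of bounded size,
then every circuit for Hamiltonicity can be changed into such a circuit with a polynomial loss.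
-/

namespace Pool.Agent.Results.MP_6b3410_lc.NegationsPerPairSet

open Pool.Agent.H545R2.Neg

/-- A Boolean function `φ` of `n`-vertex graphs that depends in an arbitrary way on the pairs
outside `H`, while in the pairs of `H` it is monotone and depends on at most `w` of them (those in
`S`). Every variable and every constant is such a function if `w ≥ 1`. -/
def FreeOutside {n : ℕ} (H : SimpleGraph (Fin n)) (w : ℕ) (φ : SimpleGraph (Fin n) → Bool) : Prop :=
  ∃ S : Finset (Sym2 (Fin n)), (∀ e ∈ S, e ∈ H.edgeSet) ∧ S.card ≤ w ∧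
    ∀ G G' : SimpleGraph (Fin n),
      (∀ u v, ¬ H.Adj u v → (G.Adj u v ↔ G'.Adj u v)) →
      (∀ u v, s(u, v) ∈ S → G.Adj u v → G'.Adj u v) → φ G = true → φ G' = true

/-- `K` is a vertex cover of `H`. -/
def Cover {n : ℕ} (H : SimpleGraph (Fin n)) (K : Finset (Fin n)) : Prop :=
  ∀ u v, H.Adj u v → u ∈ K ∨ v ∈ K

theorem exists_matching {n : ℕ} (H : SimpleGraph (Fin n)) (t : ℕ)
    (h : ∀ K, Cover H K → 2 * t ≤ K.card) :
    ∃ E : Finset (Fin n × Fin n), (∀ e ∈ E, H.Adj e.1 e.2) ∧
      (∀ e ∈ E, ∀ f ∈ E, e ≠ f → e.1 ≠ f.1 ∧ e.1 ≠ f.2 ∧ e.2 ≠ f.1 ∧ e.2 ≠ f.2) ∧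
      t ≤ E.card := by
  classical
  let P : Finset (Fin n × Fin n) → Prop := fun E => (∀ e ∈ E, H.Adj e.1 e.2) ∧
      (∀ e ∈ E, ∀ f ∈ E, e ≠ f → e.1 ≠ f.1 ∧ e.1 ≠ f.2 ∧ e.2 ≠ f.1 ∧ e.2 ≠ f.2)
  obtain ⟨E, hE, hmax⟩ := Finset.exists_max_image
    ((Finset.univ : Finset (Finset (Fin n × Fin n))).filter P) Finset.card
    ⟨∅, by simp [P]⟩
  have hP : P E := (Finset.mem_filter.mp hE).2
  refine ⟨E, hP.1, hP.2, ?_⟩
  have hcov : Cover H (E.image Prod.fst ∪ E.image Prod.snd) := by
    intro u v huv
    by_contra hcon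
    push Not at hcon
    simp only [Finset.mem_union, Finset.mem_image, not_or, not_exists, not_and] at hcon
    obtain ⟨⟨hu1, hu2⟩, hv1, hv2⟩ := hcon
    have hnot : (u, v) ∉ E := fun h => hu1 _ h rfl
    have hP' : P (insert (u, v) E) := by
      refine ⟨?_, ?_⟩
      · intro e he
        rcases Finset.mem_insert.mp he with rfl | he
        · exact huv
        · exact hP.1 e he
      · intro e he f hf hef
        rcases Finset.mem_insert.mp he with rfl | he
        · rcases Finset.mem_insert.mp hf with rfl | hf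
          · exact absurd rfl hef
          · exact ⟨fun h => hu1 f hf h.symm, fun h => hu2 f hf h.symm, fun h => hv1 f hf h.symm,
              fun h => hv2 f hf h.symm⟩
        · rcases Finset.mem_insert.mp hf with rfl | hf
          · exact ⟨hu1 e he, hv1 e he, hu2 e he, hv2 e he⟩
          · exact hP.2 e he f hf hef
    have := hmax (insert (u, v) E) (by simp [hP'])
    rw [Finset.card_insert_of_notMem hnot] at this
    omega
  have h1 := h _ hcov
  have h2 : (E.image Prod.fst ∪ E.image Prod.snd).card ≤ E.card + E.card :=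
    (Finset.card_union_le _ _).trans (Nat.add_le_add Finset.card_image_le Finset.card_image_le)
  omega

/-- `BProg B L`: the list `L` of Boolean functions is computed by a circuit of arbitrary binary
gates with inputs in `B` (one function for each gate). `MonoIn H φ`: `φ` is monotone in the pairs
of `H`. `varsConst n`: the variables (`G ↦ [uv ∈ G]`) and the constants. A circuit `L` computes `f`
if `f` is one of its inputs or gates.

(1) Lower bound: if every vertex cover of `H` has at least `2^43 (⌊log₂ d⌋+1)^4 d^2` vertices and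
`n ≥ (2^131 (⌊log₂ d⌋+1)^12 d^6)^2`, then every circuit with inputs `FreeOutside H d` for
Hamiltonicity, all of whose gates are monotone in the pairs of `H`, has at least `2^d` gates.
(2) Upper bound: if `H` has a vertex cover with `k` vertices, then for every circuit for
Hamiltonicity with `s` gates, whose inputs are variables and constants, there is one with at most
`(kn+1)^(2k) (s+2k+1)` gates all of which are monotone in the pairs of `H`. -/
theorem result (n : ℕ) (H : SimpleGraph (Fin n)) :
    (∀ d : ℕ, 1 ≤ d → (2 ^ 131 * (Nat.log 2 d + 1) ^ 12 * d ^ 6) ^ 2 ≤ n →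
      (∀ K, Cover H K → 2 ^ 43 * (Nat.log 2 d + 1) ^ 4 * d ^ 2 ≤ K.card) →
      ∀ (L : List (SimpleGraph (Fin n) → Bool)) (f : SimpleGraph (Fin n) → Bool),
        BProg {φ | FreeOutside H d φ} L → (f ∈ {φ | FreeOutside H d φ} ∨ f ∈ L) →
        (∀ G, f G = true ↔ G.IsHamiltonian) → (∀ g ∈ L, MonoIn H g) → 2 ^ d ≤ L.length) ∧
    (∀ K, Cover H K →
      ∀ (L : List (SimpleGraph (Fin n) → Bool)) (f : SimpleGraph (Fin n) → Bool),
        BProg (varsConst n) L → (f ∈ varsConst n ∨ f ∈ L) →
        (∀ G, f G = true ↔ G.IsHamiltonian) →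
        ∃ (L' : List (SimpleGraph (Fin n) → Bool)) (g : SimpleGraph (Fin n) → Bool),
          BProg (varsConst n) L' ∧ (g ∈ varsConst n ∨ g ∈ L') ∧
          (∀ G, g G = true ↔ G.IsHamiltonian) ∧ (∀ h ∈ L', MonoIn H h) ∧
          L'.length ≤ (K.card * n + 1) ^ (2 * K.card) * (L.length + 2 * K.card + 1)) := by
  constructor
  · intro d hd hn hcov L f hL hf hham hmono
    obtain ⟨E, h1, h2, h3⟩ := exists_matching H (2 ^ 42 * (Nat.log 2 d + 1) ^ 4 * d ^ 2) (by
      intro K hK
      refine le_trans (le_of_eq ?_) (hcov K hK)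
      ring)
    exact every_lower d n hd hn H E h1 h2 h3 L hL hmono f hf hham
  · intro K hK L f hL hf hham
    obtain ⟨L', g, h1, h2, h3, h4, h5⟩ := cover_upper H K hK L hL f hf hham
    exact ⟨L', g, h1, h4, h5, h3, h2⟩

end Pool.Agent.Results.MP_6b3410_lc.NegationsPerPairSet
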