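import Pool.Agent.H545R2.KFinal

set_option autoImplicit false

/-! # The cost of symmetry on quadruples of vertices in networks for Hamiltonicity

A network on the graphs with vertex set `V` is symmetric on a quadruple `b` of vertices if the two
double transpositions `(b₀ b₁)(b₂ b₃)` and `(b₀ b₂)(b₁ b₃)` extend to automorphisms of the network.

For the least size of a network for Hamiltonicity symmetric on `r` given disjoint quadruples we
prove both an exponential lower bound `2 ^ (r / 2000000)` (for gates computing arbitrary functions
of the number of their true inputs) and the upper bound `4 ^ r * (s + 1) + 1` (for NAND gates),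
where `s` is the size of any NAND network for Hamiltonicity.

So networks of polynomial size can be symmetric on `Θ(log n)` quadruples and not more. -/

namespace Pool.Agent.Results.MP_6b3410_lc.QuadrupleSymmetry

open Pool.Agent.H545R2.K

theorem result :
    (∀ (V Gt : Type) [Fintype V] [DecidableEq V] [Fintype Gt] (N : Net V Gt),
      (∀ G : SimpleGraph V, N.val G N.out = true ↔ G.IsHamiltonian) →
      ∀ (r : ℕ) (blk : Fin r → (Fin 4 ↪ V)),
        (Pairwise fun i j => Disjoint (Set.range (blk i)) (Set.range (blk j))) →
        (∀ i, N.SymOn (blk i)) → 2 ^ (r / 2000000) ≤ Fintype.card Gt) ∧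
    (∀ (V Gt : Type) [Fintype V] [DecidableEq V] [Fintype Gt] (N : Net V Gt), N.IsNand →
      (∀ G : SimpleGraph V, N.val G N.out = true ↔ G.IsHamiltonian) →
      ∀ (r : ℕ) (blk : Fin r → (Fin 4 ↪ V)),
        (Pairwise fun i j => Disjoint (Set.range (blk i)) (Set.range (blk j))) →
        ∃ (Gt' : Type) (_ : Fintype Gt') (N' : Net V Gt'), N'.IsNand ∧
          (∀ G : SimpleGraph V, N'.val G N'.out = true ↔ G.IsHamiltonian) ∧
          (∀ i, N'.SymOn (blk i)) ∧
          Fintype.card Gt' = 4 ^ r * (Fintype.card Gt + 1) + 1) := by
  refine ⟨?_, ?_⟩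
  · intro V Gt _ _ _ N hN r blk hd hs
    exact sym_lower' N hN blk hd hs
  · intro V Gt _ _ _ N hnand hN r blk hd
    classical
    exact ⟨SG Gt r, inferInstance, symNet N (blkE blk hd), symNet_nand N _ hnand,
      symNet_ham N _ hN, symNet_sym N blk hd, card_SG⟩

end Pool.Agent.Results.MP_6b3410_lc.QuadrupleSymmetry
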